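import Mathlib
import Pool.Agent.R135.BaseR

/-!
# MP_ffae75_co: the base-`14` `5`-simplex is not Ehrhart positive

The Ehrhart polynomial of `B_(14,5)` is
`1 - 268/15 t + 3955/12 t^2 + 5833/2 t^3 + 10343/12 t^4 + 67228/15 t^5`.
-/

set_option autoImplicit false
open scoped Pointwise

namespace Pool.Agent.Results.MP_ffae75_co.NotEhrhartPositive

open Pool.Agent.R135.BaseR

/-- `L` is the Ehrhart polynomial of `P ⊆ ℝ^d`: `L(t) = #(tP ∩ ℤ^d)` for all integers `t ≥ 0`. -/
def IsEhrhartPolynomial {d : ℕ} (P : Set (Fin d → ℝ)) (L : Polynomial ℚ) : Prop :=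
  ∀ t : ℕ, L.eval (t : ℚ) =
    (Set.ncard {z : Fin d → ℤ | (fun i => (z i : ℝ)) ∈ (t : ℝ) • P} : ℚ)

/-- table -/
def t1f : List ℕ := [13000001, 12000002, 11000003, 10000004, 9000005, 8000006, 7000007, 6000008, 5000009, 4000010, 3000011, 2000012, 1000013, 14]

/-- table -/
def t1t : List ℕ := [14000000, 13000001, 12000002, 11000003, 10000004, 9000005, 8000006, 7000007, 6000008, 5000009, 4000010, 3000011, 2000012, 1000013]

/-- table -/
def t2f : List ℕ := [91000104000001, 78000115000003, 66000124000006, 55000131000010, 45000136000015, 36000139000021, 28000140000028, 21000139000036, 15000136000045, 10000131000055, 6000124000066, 3000115000078, 1000104000091, 91000105]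

/-- table -/
def t2t : List ℕ := [105000091000000, 91000104000001, 78000115000003, 66000124000006, 55000131000010, 45000136000015, 36000139000021, 28000140000028, 21000139000036, 15000136000045, 10000131000055, 6000124000066, 3000115000078, 1000104000091]

/-- table -/
def t3f : List ℕ := [455001729000559000001, 364001703000673000004, 286001654000794000010, 220001585000919000020, 165001499001045000035, 120001399001169000056, 84001288001288000084, 56001169001399000120, 35001045001499000165, 20000919001585000220, 10000794001654000286, 4000673001703000364, 1000559001729000455, 455001729000560]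

/-- table -/
def t3t : List ℕ := [560001729000455000000, 455001729000559000001, 364001703000673000004, 286001654000794000010, 220001585000919000020, 165001499001045000035, 120001399001169000056, 84001288001288000084, 56001169001399000120, 35001045001499000165, 20000919001585000220, 10000794001654000286, 4000673001703000364, 1000559001729000455]

/-- table -/
def t4f : List ℕ := [1820016471017745002379000001, 1365015106018889003051000005, 1001013689019870003841000015, 715012255020661004750000035, 495010835021241005775000070, 330009456021595006909000126, 210008141021714008141000210, 126006909021595009456000330, 70005775021241010835000495, 35004750020661012255000715, 15003841019870013689001001, 5003051018889015106001365, 1002379017745016471001820, 1820016471017745002380]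

/-- table -/
def t4t : List ℕ := [2380017745016471001820000000, 1820016471017745002379000001, 1365015106018889003051000005, 1001013689019870003841000015, 715012255020661004750000035, 495010835021241005775000070, 330009456021595006909000126, 210008141021714008141000210, 126006909021595009456000330, 70005775021241010835000495, 35004750020661012255000715, 15003841019870013689001001, 5003051018889015106001365, 1002379017745016471001820]

/-- table look-up -/
def look (tf tt : List ℕ) (w : ℕ) (c : Bool) : ℕ := if c then tt.getD w 0 else tf.getD w 0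

theorem W1 : ∀ w < 14, ∀ c : Bool, W 14 1000000 1 w c = look t1f t1t w c := by
  decide +kernel

theorem step2 : ∀ w < 14, ∀ c : Bool, (∑ w2 ∈ Finset.range 14,
    (if cmp w c w2 then 1000000 else 1) * look t1f t1t w2 (cmp w c w2)) = look t2f t2t w c := by
  decide +kernel

theorem W2 : ∀ w < 14, ∀ c : Bool, W 14 1000000 2 w c = look t2f t2t w c := by
  intro w hw c
  rw [W, ← step2 w hw c]
  apply Finset.sum_congr rfl
  intro w2 hw2
  rw [W1 w2 (Finset.mem_range.mp hw2)]

theorem step3 : ∀ w < 14, ∀ c : Bool, (∑ w2 ∈ Finset.range 14,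
    (if cmp w c w2 then 1000000 else 1) * look t2f t2t w2 (cmp w c w2)) = look t3f t3t w c := by
  decide +kernel

theorem W3 : ∀ w < 14, ∀ c : Bool, W 14 1000000 3 w c = look t3f t3t w c := by
  intro w hw c
  rw [W, ← step3 w hw c]
  apply Finset.sum_congr rfl
  intro w2 hw2
  rw [W2 w2 (Finset.mem_range.mp hw2)]

theorem step4 : ∀ w < 14, ∀ c : Bool, (∑ w2 ∈ Finset.range 14,
    (if cmp w c w2 then 1000000 else 1) * look t3f t3t w2 (cmp w c w2)) = look t4f t4t w c := by
  decide +kernel

theorem W4 : ∀ w < 14, ∀ c : Bool, W 14 1000000 4 w c = look t4f t4t w c := by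
  intro w hw c
  rw [W, ← step4 w hw c]
  apply Finset.sum_congr rfl
  intro w2 hw2
  rw [W3 w2 (Finset.mem_range.mp hw2)]

theorem step5 : (∑ w2 ∈ Finset.range 14,
    (if cmp 0 false w2 then 1000000 else 1) * look t4f t4t w2 (cmp 0 false w2)) =
    6188114478278187130403008567000001 := by
  decide +kernel

theorem W5 : W 14 1000000 5 0 false = 6188114478278187130403008567000001 := by
  rw [W, ← step5]
  apply Finset.sum_congr rfl
  intro w2 hw2
  rw [W4 w2 (Finset.mem_range.mp hw2)]

theorem digit (a c x y : ℕ) (ha : a < 1000000) (hc : c < 1000000)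
    (h : a + 1000000 * x = c + 1000000 * y) : a = c ∧ x = y := by
  omega

theorem digits (a b c d e g : ℕ) (ha : a < 1000000) (hb : b < 1000000) (hc : c < 1000000)
    (hd : d < 1000000) (he : e < 1000000)
    (h : a * 1000000 ^ 0 + b * 1000000 ^ 1 + c * 1000000 ^ 2 + d * 1000000 ^ 3 +
      e * 1000000 ^ 4 + g * 1000000 ^ 5 = 6188114478278187130403008567000001) :
    a = 1 ∧ b = 8567 ∧ c = 130403 ∧ d = 278187 ∧ e = 114478 ∧ g = 6188 := by
  have h1 : a + 1000000 * (b + 1000000 * (c + 1000000 * (d + 1000000 * (e + 1000000 * g)))) =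
      1 + 1000000 * (8567 + 1000000 * (130403 + 1000000 * (278187 + 1000000 *
        (114478 + 1000000 * 6188)))) := by
    calc _ = a * 1000000 ^ 0 + b * 1000000 ^ 1 + c * 1000000 ^ 2 + d * 1000000 ^ 3 +
      e * 1000000 ^ 4 + g * 1000000 ^ 5 := by ring
      _ = 6188114478278187130403008567000001 := h
      _ = _ := by norm_num
  obtain ⟨r1, h2⟩ := digit _ _ _ _ ha (by norm_num) h1
  obtain ⟨r2, h3⟩ := digit _ _ _ _ hb (by norm_num) h2
  obtain ⟨r3, h4⟩ := digit _ _ _ _ hc (by norm_num) h3
  obtain ⟨r4, h5⟩ := digit _ _ _ _ hd (by norm_num) h4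
  obtain ⟨r5, h6⟩ := digit _ _ _ _ he (by norm_num) h5
  exact ⟨r1, r2, r3, r4, r5, h6⟩

theorem digitsf (f : ℕ → ℕ) (hf : ∀ i, f i ≤ 14 ^ 5)
    (h : ∑ i ∈ Finset.range (5 + 1), f i * 1000000 ^ i = 6188114478278187130403008567000001) :
    f 0 = 1 ∧ f 1 = 8567 ∧ f 2 = 130403 ∧ f 3 = 278187 ∧ f 4 = 114478 ∧ f 5 = 6188 := by
  have hle : ∀ i, f i < 1000000 := by
    intro i
    have := hf i
    norm_num at this
    linarith
  simp only [Finset.sum_range_succ, Finset.sum_range_zero, zero_add] at h
  exact digits _ _ _ _ _ _ (hle 0) (hle 1) (hle 2) (hle 3) (hle 4) h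

theorem sum_values : ∑ i ∈ Finset.range (5 + 1), Nf 14 5 i * 1000000 ^ i =
    6188114478278187130403008567000001 :=
  (sum_Nf_pow 14 1000000 5 (by norm_num)).trans W5

theorem N_values : Nf 14 5 0 = 1 ∧ Nf 14 5 1 = 8567 ∧ Nf 14 5 2 = 130403 ∧
    Nf 14 5 3 = 278187 ∧ Nf 14 5 4 = 114478 ∧ Nf 14 5 5 = 6188 :=
  digitsf (Nf 14 5) (Nf_le 14 5) sum_values

theorem choose_cast (n : ℕ) : ((5 + n).choose n : ℚ) =
    (n + 1) * (n + 2) * (n + 3) * (n + 4) * (n + 5) / 120 := by
  have h := Nat.ascFactorial_eq_factorial_mul_choose n 5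
  have h1 : (n + 5).choose 5 = (5 + n).choose n := by
    rw [add_comm n 5, Nat.choose_symm_add]
  rw [h1] at h
  have h2 : (n + 1).ascFactorial 5 = (n + 1) * (n + 2) * (n + 3) * (n + 4) * (n + 5) := by
    simp [Nat.ascFactorial]
    ring
  rw [h2] at h
  have h3 : (Nat.factorial 5 : ℚ) = 120 := by norm_num [Nat.factorial]
  have h4 := congrArg (fun x : ℕ => (x : ℚ)) h
  push_cast at h4
  rw [h3] at h4
  rw [h4]
  field_simp

theorem term_cast (t i : ℕ) (hi : i ≤ 5) :
    ((if i ≤ t then (5 + (t - i)).choose (t - i) else 0 : ℕ) : ℚ) =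
      ((t : ℚ) - i + 1) * (t - i + 2) * (t - i + 3) * (t - i + 4) * (t - i + 5) / 120 := by
  split_ifs with h
  · rw [choose_cast]
    push_cast [Nat.cast_sub h]
    ring
  · push Not at h
    rw [Nat.cast_zero]
    symm
    rw [div_eq_zero_iff]
    left
    have : (t : ℚ) - i + 1 = 0 ∨ (t : ℚ) - i + 2 = 0 ∨ (t : ℚ) - i + 3 = 0 ∨
        (t : ℚ) - i + 4 = 0 ∨ (t : ℚ) - i + 5 = 0 := by
      obtain ⟨j, hj⟩ : ∃ j, i = t + j := ⟨i - t, by omega⟩
      have hj1 : 1 ≤ j := by omega
      have hj5 : j ≤ 5 := by omega
      subst hj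
      push_cast
      interval_cases j
      · left; push_cast; ring
      · right; left; push_cast; ring
      · right; right; left; push_cast; ring
      · right; right; right; left; push_cast; ring
      · right; right; right; right; push_cast; ring
    rcases this with h | h | h | h | h <;> rw [h] <;> ring

/-- the Ehrhart polynomial of `B_(14,5)` -/
noncomputable def L : Polynomial ℚ :=
  Polynomial.C 1 + Polynomial.C (-(268 / 15)) * Polynomial.X +
    Polynomial.C (3955 / 12) * Polynomial.X ^ 2 + Polynomial.C (5833 / 2) * Polynomial.X ^ 3 +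
    Polynomial.C (10343 / 12) * Polynomial.X ^ 4 + Polynomial.C (67228 / 15) * Polynomial.X ^ 5

theorem eval_L (f : ℕ → ℕ) (hf : f 0 = 1 ∧ f 1 = 8567 ∧ f 2 = 130403 ∧ f 3 = 278187 ∧
    f 4 = 114478 ∧ f 5 = 6188) (t : ℕ) : L.eval (t : ℚ) = ((∑ i ∈ Finset.range (5 + 1),
        f i * (if i ≤ t then (5 + (t - i)).choose (t - i) else 0) : ℕ) : ℚ) := by
  obtain ⟨h0, h1, h2, h3, h4, h5⟩ := hf
  rw [Nat.cast_sum, Finset.sum_congr rfl (g := fun i : ℕ => (f i : ℚ) *
    (((t : ℚ) - i + 1) * (t - i + 2) * (t - i + 3) * (t - i + 4) * (t - i + 5) / 120))]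
  · simp only [Finset.sum_range_succ, Finset.sum_range_zero, h0, h1, h2, h3, h4, h5, L,
      Polynomial.eval_add, Polynomial.eval_mul, Polynomial.eval_C, Polynomial.eval_X,
      Polynomial.eval_pow]
    push_cast
    ring
  · intro i hi
    rw [Finset.mem_range] at hi
    rw [Nat.cast_mul, term_cast t i (by omega)]

theorem isEhrhart : IsEhrhartPolynomial (simplexB 14 5) L := by
  intro t
  rw [card_lattice' 14 5 t (by norm_num)]
  exact eval_L (Nf 14 5) N_values t

/-- **Main theorem.** The simplex `B_(14,5)` is not Ehrhart positive: its Ehrhart polynomial is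
`1 - 268/15 t + 3955/12 t^2 + 5833/2 t^3 + 10343/12 t^4 + 67228/15 t^5`, whose linear coefficient is
negative; the second part says that the Ehrhart polynomial is unique. -/
theorem result : IsEhrhartPolynomial (simplexB 14 5)
      (Polynomial.C 1 + Polynomial.C (-(268 / 15)) * Polynomial.X +
        Polynomial.C (3955 / 12) * Polynomial.X ^ 2 + Polynomial.C (5833 / 2) * Polynomial.X ^ 3 +
        Polynomial.C (10343 / 12) * Polynomial.X ^ 4 +
        Polynomial.C (67228 / 15) * Polynomial.X ^ 5) ∧
    ∀ L : Polynomial ℚ, IsEhrhartPolynomial (simplexB 14 5) L → L.coeff 1 = -(268 / 15) := by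
  refine ⟨isEhrhart, ?_⟩
  intro L' hL'
  have : L' = L := by
    apply Polynomial.eq_of_infinite_eval_eq
    apply Set.infinite_of_injective_forall_mem (f := fun t : ℕ => (t : ℚ)) Nat.cast_injective
    intro t
    rw [Set.mem_ofPred_eq, hL' t, isEhrhart t]
  rw [this, L]
  simp [Polynomial.coeff_C, Polynomial.coeff_one]

end Pool.Agent.Results.MP_ffae75_co.NotEhrhartPositive
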